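import Pool.Agent.Lib.MP_349b57_lc.Decode

/-!
# MP_349b57_lc: the Gamma value zero is attained
-/

set_option autoImplicit false

namespace Pool.Agent.Results.MP_349b57_lc.GammaAttained

open Classical in
/-- The characteristic function of the set `S`, as a (total) partial function. -/
noncomputable def chi (S : Set ℕ) : ℕ →. ℕ := fun n => Part.some (if n ∈ S then 1 else 0)

/-- Turing reducibility of sets: `Y ≤_T X`. -/
def TuringBelow (Y X : Set ℕ) : Prop := TuringReducible (chi Y) (chi X)

/-- The lower density `liminf |S ∩ {0, ..., n-1}| / n`. -/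
noncomputable def lowerDensity (S : Set ℕ) : ℝ :=
  Filter.liminf (fun n : ℕ => ((S ∩ Set.Iio n).ncard : ℝ) / (n : ℝ)) Filter.atTop

/-- The set of positions where `Y` and `A` agree. -/
def agree (Y A : Set ℕ) : Set ℕ := {n | n ∈ Y ↔ n ∈ A}

/-- `γ(Y)`: the supremum of the lower densities of agreement of `Y` with computable sets. -/
noncomputable def gamma (Y : Set ℕ) : ℝ :=
  sSup {d : ℝ | ∃ A : Set ℕ, ComputablePred (fun n => n ∈ A) ∧ d = lowerDensity (agree Y A)}

/-- `Γ(X)`: the infimum of `γ(Y)` over all `Y ≤_T X`. -/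
noncomputable def Gam (X : Set ℕ) : ℝ :=
  sInf {g : ℝ | ∃ Y : Set ℕ, TuringBelow Y X ∧ g = gamma Y}

open Classical in
private noncomputable def bf (S : Set ℕ) (n : ℕ) : Bool := decide (n ∈ S)

private theorem chi_bf (S : Set ℕ) :
    chi S = fun n => Part.some (if bf S n then 1 else 0) := by
  funext n
  unfold chi bf
  congr 1
  by_cases h : n ∈ S
  · rw [if_pos h, if_pos (by simpa using h)]
  · rw [if_neg h, if_neg (by simpa using h)]

private theorem dens_bf (Y A : Set ℕ) (n : ℕ) : ((agree Y A ∩ Set.Iio n).ncard : ℝ) / (n : ℝ) =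
    ((((Finset.range n).filter (fun k => bf Y k = bf A k)).card : ℝ) / (n : ℝ)) := by
  congr 2
  rw [← Set.ncard_coe_finset]
  congr 1
  ext k
  simp only [agree, Set.mem_inter_iff, Set.mem_setOf_eq, Set.mem_Iio, Finset.coe_filter,
    Finset.mem_range, bf, decide_eq_decide]
  exact and_comm

private theorem lowerDensity_bf (Y A : Set ℕ) : lowerDensity (agree Y A) =
    Filter.liminf (fun n : ℕ =>
      ((((Finset.range n).filter (fun k => bf Y k = bf A k)).card : ℝ) / (n : ℝ)))
      Filter.atTop := by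
  unfold lowerDensity
  congr 1
  funext n
  exact dens_bf Y A n

private theorem lowerDensity_le_one (Y A : Set ℕ) : lowerDensity (agree Y A) ≤ 1 := by
  rw [lowerDensity_bf]
  refine Filter.liminf_le_of_frequently_le (Filter.Frequently.of_forall fun n =>
    GammaZero.dens_le_one (bf Y) (bf A) n) ?_
  exact Filter.isBoundedUnder_of ⟨0, fun n => GammaZero.dens_nonneg (bf Y) (bf A) n⟩

private theorem le_gamma (Y A : Set ℕ) (hA : ComputablePred (fun n => n ∈ A)) :
    lowerDensity (agree Y A) ≤ gamma Y := by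
  refine le_csSup ⟨1, ?_⟩ ⟨A, hA, rfl⟩
  rintro d ⟨B, -, rfl⟩
  exact lowerDensity_le_one Y B

private theorem computable_bf {A : Set ℕ} (hA : ComputablePred (fun n => n ∈ A)) :
    Computable (bf A) := by
  obtain ⟨h1, h2⟩ := hA
  have h3 : (fun n => decide (n ∈ A)) = bf A := by
    funext n
    unfold bf
    congr
  rwa [h3] at h2

private theorem setOf_bool (Y : ℕ → Bool) : bf {n | Y n = true} = Y := by
  funext n
  unfold bf
  simp

private theorem one_set (Z : Set ℕ) (hZ : gamma Z ≤ 1 / 512) :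
    ∃ Y : Set ℕ, TuringBelow Y Z ∧ gamma Y = 0 := by
  have hZ' : ∀ C : ℕ → Bool, Computable C → Filter.liminf (fun n : ℕ =>
      ((((Finset.range n).filter (fun k => bf Z k = C k)).card : ℝ) / (n : ℝ)))
      Filter.atTop ≤ 1 / 512 := by
    intro C hC
    have h1 : ComputablePred (fun n => n ∈ {n | C n = true}) := by
      refine ⟨fun n => inferInstanceAs (Decidable (C n = true)), ?_⟩
      have h2 : (fun n => @decide (n ∈ {n | C n = true})
          (inferInstanceAs (Decidable (C n = true)))) = C := by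
        funext n
        simp
      rw [h2]
      exact hC
    have h2 := (le_gamma Z {n | C n = true} h1).trans hZ
    rwa [lowerDensity_bf, setOf_bool] at h2
  obtain ⟨cd, hcd, hcode⟩ := GammaZero.exists_computable_code
  have hZ1 : GammaZero.CI {(chi Z : ℕ →. ℕ)} (GammaZero.zb (bf Z)) := by
    rw [chi_bf]
    exact ⟨GammaZero.zb (bf Z), RecursiveIn.iff_nat.1 TuringReducible.rfl, fun _ => rfl⟩
  have hf := GammaZero.ci_dec hZ1 (GammaZero.CI.of_computable hcd)
  have hioe := GammaZero.exists_ioe hcd hcode (Z := bf Z) hZ'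
  obtain ⟨Y, ⟨F, hF, hFe⟩, hY⟩ := GammaZero.exists_of_ioe hf (fun g hg hlt N => hioe g hg hlt N)
  refine ⟨{n | Y n = true}, ?_, ?_⟩
  · have h1 : F = fun n => if Y n then 1 else 0 := funext fun n => hFe n
    rw [h1] at hF
    unfold TuringBelow
    rw [chi_bf {n | Y n = true}, setOf_bool]
    exact RecursiveIn.iff_nat.2 hF
  · have h0 : ∀ A : Set ℕ, ComputablePred (fun n => n ∈ A) →
        lowerDensity (agree {n | Y n = true} A) = 0 := by
      intro A hA
      rw [lowerDensity_bf, setOf_bool]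
      exact hY (bf A) (computable_bf hA)
    have hempty : ComputablePred (fun n => n ∈ (∅ : Set ℕ)) := by
      refine ⟨fun n => isFalse (Set.notMem_empty n), ?_⟩
      exact Computable.const false
    unfold gamma
    have hset : {d : ℝ | ∃ A : Set ℕ, ComputablePred (fun n => n ∈ A) ∧
        d = lowerDensity (agree {n | Y n = true} A)} = {0} := by
      ext d
      constructor
      · rintro ⟨A, hA, rfl⟩
        exact h0 A hA
      · intro hd
        rw [Set.mem_singleton_iff] at hd
        exact ⟨∅, hempty, by rw [hd, h0 _ hempty]⟩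
    rw [hset, csSup_singleton]

/-- (1) Below every set `Z` with `γ(Z) ≤ 1/512` there is a set `Y ≤_T Z` with `γ(Y) = 0`.
(2) If `Γ(X) < 1/512`, in particular if `Γ(X) = 0`, then the infimum defining `Γ(X)` is attained with
the value `0`: there is `Y ≤_T X` with `γ(Y) = 0`. -/
theorem result :
    (∀ Z : Set ℕ, gamma Z ≤ 1 / 512 → ∃ Y : Set ℕ, TuringBelow Y Z ∧ gamma Y = 0) ∧
    ∀ X : Set ℕ, Gam X < 1 / 512 → ∃ Y : Set ℕ, TuringBelow Y X ∧ gamma Y = 0 := by
  refine ⟨one_set, fun X hX => ?_⟩
  have hne : {g : ℝ | ∃ Y : Set ℕ, TuringBelow Y X ∧ g = gamma Y}.Nonempty :=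
    ⟨gamma X, X, TuringReducible.rfl, rfl⟩
  obtain ⟨g, ⟨Z, hZX, rfl⟩, hg⟩ := exists_lt_of_csInf_lt hne hX
  obtain ⟨Y, hYZ, hY⟩ := one_set Z hg.le
  exact ⟨Y, TuringReducible.trans hYZ hZX, hY⟩

end Pool.Agent.Results.MP_349b57_lc.GammaAttained
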